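import Mathlib

/-!
# Connected graphs whose strong Roman domination number is close to the order
-/

set_option autoImplicit false

namespace Pool.Agent.Results.MP_fc66e6_co.NoBound

open SimpleGraph Finset

/-- `f` is a strong Roman dominating function of `G`. -/
def IsStRDF {V : Type} [Fintype V] (G : SimpleGraph V) [DecidableRel G.Adj] (f : V → ℕ) : Prop :=
  (∀ v, f v ≤ ⌈(G.maxDegree : ℚ) / 2⌉₊ + 1) ∧
    ∀ v, f v = 0 → ∃ w, G.Adj v w ∧ 2 ≤ f w ∧
      1 + ⌈((univ.filter fun u => G.Adj w u ∧ f u = 0).card : ℚ) / 2⌉₊ ≤ f w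

/-- The strong Roman domination number: the least weight of a strong Roman dominating function. -/
noncomputable def strongRomanNum {V : Type} [Fintype V] (G : SimpleGraph V)
    [DecidableRel G.Adj] : ℕ :=
  sInf {k | ∃ f : V → ℕ, IsStRDF G f ∧ ∑ v, f v = k}

section general

variable {V : Type} [Fintype V] {G : SimpleGraph V} [DecidableRel G.Adj]

/-- good vertices -/
def Good (G : SimpleGraph V) [DecidableRel G.Adj] (f : V → ℕ) (w : V) : Prop :=
  2 ≤ f w ∧ 1 + ⌈((univ.filter fun u => G.Adj w u ∧ f u = 0).card : ℚ) / 2⌉₊ ≤ f w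

open Classical in
lemma weight_ge {f : V → ℕ} (hf : IsStRDF G f) :
    2 * Fintype.card V ≤ 2 * ∑ v, f v +
      (univ.filter fun v => (univ.filter fun w => G.Adj v w ∧ Good G f w).card = 1).card := by
  -- pointwise estimate
  have h1 : ∀ v, 2 * (if f v = 0 then 0 else 1) +
      (if Good G f v then (univ.filter fun u => G.Adj v u ∧ f u = 0).card else 0) ≤ 2 * f v := by
    intro v
    by_cases hg : Good G f v
    · obtain ⟨h2, h3⟩ := hg
      rw [if_neg (by omega), if_pos ⟨h2, h3⟩]
      have h4 : ((univ.filter fun u => G.Adj v u ∧ f u = 0).card : ℚ) / 2 ≤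
          ⌈((univ.filter fun u => G.Adj v u ∧ f u = 0).card : ℚ) / 2⌉₊ := Nat.le_ceil _
      have h5 : (1 : ℚ) + ⌈((univ.filter fun u => G.Adj v u ∧ f u = 0).card : ℚ) / 2⌉₊ ≤ f v := by
        exact_mod_cast h3
      have h6 : (2 : ℚ) + ((univ.filter fun u => G.Adj v u ∧ f u = 0).card : ℚ) ≤ 2 * f v := by
        linarith
      have h7 : 2 + (univ.filter fun u => G.Adj v u ∧ f u = 0).card ≤ 2 * f v := by
        exact_mod_cast h6
      omega
    · rw [if_neg hg]
      split_ifs with h <;> omega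
  have h2 : 2 * ∑ v, (if f v = 0 then 0 else 1) +
      ∑ v, (if Good G f v then (univ.filter fun u => G.Adj v u ∧ f u = 0).card else 0) ≤
      2 * ∑ v, f v := by
    rw [Finset.mul_sum, Finset.mul_sum, ← Finset.sum_add_distrib]
    exact Finset.sum_le_sum fun v _ => h1 v
  -- double counting
  have h3 : ∑ v, (if Good G f v then (univ.filter fun u => G.Adj v u ∧ f u = 0).card else 0) =
      ∑ u, (if f u = 0 then (univ.filter fun w => G.Adj u w ∧ Good G f w).card else 0) := by
    have e1 : ∀ v, (if Good G f v then (univ.filter fun u => G.Adj v u ∧ f u = 0).card else 0) =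
        ∑ u, (if Good G f v ∧ G.Adj v u ∧ f u = 0 then 1 else 0) := by
      intro v
      by_cases hg : Good G f v
      · simp only [hg, if_true, true_and, Finset.card_filter]
      · simp [hg]
    have e2 : ∀ u, (if f u = 0 then (univ.filter fun w => G.Adj u w ∧ Good G f w).card else 0) =
        ∑ v, (if Good G f v ∧ G.Adj v u ∧ f u = 0 then 1 else 0) := by
      intro u
      by_cases hg : f u = 0
      · simp only [hg, if_true, and_true, Finset.card_filter]
        apply Finset.sum_congr rfl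
        intro v _
        congr 1
        rw [G.adj_comm u v]
        exact propext and_comm
      · simp [hg]
    rw [Finset.sum_congr rfl fun v _ => e1 v, Finset.sum_congr rfl fun u _ => e2 u]
    exact Finset.sum_comm
  have h4 : ∀ u, 2 ≤ 2 * (if f u = 0 then 0 else 1) +
      (if f u = 0 then (univ.filter fun w => G.Adj u w ∧ Good G f w).card else 0) +
      (if (univ.filter fun w => G.Adj u w ∧ Good G f w).card = 1 then 1 else 0) := by
    intro u
    by_cases hu : f u = 0
    · obtain ⟨w, hw1, hw2, hw3⟩ := hf.2 u hu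
      have h5 : 0 < (univ.filter fun w => G.Adj u w ∧ Good G f w).card := by
        rw [Finset.card_pos]
        exact ⟨w, by simp only [Finset.mem_filter, Finset.mem_univ, true_and]; exact ⟨hw1, hw2, hw3⟩⟩
      rw [if_pos hu, if_pos hu]
      split_ifs with h6 <;> omega
    · rw [if_neg hu]
      omega
  have h5 : 2 * Fintype.card V ≤ ∑ u, (2 * (if f u = 0 then 0 else 1) +
      (if f u = 0 then (univ.filter fun w => G.Adj u w ∧ Good G f w).card else 0) +
      (if (univ.filter fun w => G.Adj u w ∧ Good G f w).card = 1 then 1 else 0)) := by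
    calc 2 * Fintype.card V = ∑ _u : V, 2 := by
          rw [Finset.sum_const, Finset.card_univ, smul_eq_mul, mul_comm]
      _ ≤ _ := Finset.sum_le_sum fun u _ => h4 u
  rw [Finset.sum_add_distrib, Finset.sum_add_distrib, ← Finset.mul_sum] at h5
  rw [h3] at h2
  rw [Finset.card_filter]
  omega

end general

/-- set systems such that every set meets few of its members in exactly one point -/
lemma exists_system (k : ℕ) : ∃ (A Q : Type) (_ : Fintype A) (_ : Fintype Q) (R : Q → A → Prop),
    Fintype.card A = 2 ^ k ∧ Fintype.card Q = (k + 1) * 2 ^ k ∧ (∃ q, ∀ a, R q a) ∧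
    (∀ q, ∃ a, R q a) ∧
    ∀ D : Set A, {q : Q | ∃! a, R q a ∧ a ∈ D}.ncard < 2 ^ (k + 1) := by
  induction k with
  | zero =>
    refine ⟨Unit, Unit, inferInstance, inferInstance, fun _ _ => True, by simp, by simp,
      ⟨(), fun _ => trivial⟩, fun _ => ⟨(), trivial⟩, fun D => ?_⟩
    have h := Set.ncard_le_ncard (Set.subset_univ {q : Unit | ∃! a, True ∧ a ∈ D})
    rw [Set.ncard_univ] at h
    simp at h ⊢
    omega
  | succ k ih =>
    obtain ⟨A, Q, hA, hQ, R, h1, h2, ⟨q0, h3⟩, h4, h5⟩ := ih
    refine ⟨Bool × A, (Bool × A) ⊕ (Bool × Q), inferInstance, inferInstance,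
      fun q a => Sum.elim (fun _ => True) (fun q => a.1 = q.1 ∧ R q.2 a.2) q, ?_, ?_, ?_, ?_, ?_⟩
    · rw [Fintype.card_prod, h1, Fintype.card_bool, pow_succ, mul_comm]
    · rw [Fintype.card_sum, Fintype.card_prod, Fintype.card_prod, h1, h2, Fintype.card_bool,
        pow_succ]
      ring
    · have : Nonempty A := Fintype.card_pos_iff.1 (by rw [h1]; positivity)
      obtain ⟨a⟩ := this
      exact ⟨Sum.inl (true, a), fun _ => trivial⟩
    · rintro (⟨b, a⟩ | ⟨b, q⟩)
      · exact ⟨(b, a), trivial⟩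
      · obtain ⟨a, ha⟩ := h4 q
        exact ⟨(b, a), rfl, ha⟩
    · intro D
      let Db : Bool → Set A := fun b => {a | (b, a) ∈ D}
      let S : Set ((Bool × A) ⊕ (Bool × Q)) := {q | ∃! a : Bool × A,
        Sum.elim (fun _ => True) (fun q => a.1 = q.1 ∧ R q.2 a.2) q ∧ a ∈ D}
      change S.ncard < _
      -- the members of the second kind
      have hside : ∀ b, {q : (Bool × A) ⊕ (Bool × Q) | q ∈ S ∧ ∃ q', q = Sum.inr (b, q')}.ncard ≤
          {q : Q | ∃! a, R q a ∧ a ∈ Db b}.ncard := by
        intro b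
        have hsub : {q : (Bool × A) ⊕ (Bool × Q) | q ∈ S ∧ ∃ q', q = Sum.inr (b, q')} ⊆
            (fun q => Sum.inr (b, q)) '' {q : Q | ∃! a, R q a ∧ a ∈ Db b} := by
          rintro q ⟨hq, q', rfl⟩
          refine ⟨q', ?_, rfl⟩
          obtain ⟨⟨b', a⟩, ⟨⟨h6, h7⟩, h8⟩, h9⟩ := hq
          simp only at h6 h7
          subst h6
          refine ⟨a, ⟨h7, h8⟩, fun a' ha' => ?_⟩
          have := h9 (b', a') ⟨⟨rfl, ha'.1⟩, ha'.2⟩
          exact (Prod.mk.inj this).2
        exact (Set.ncard_le_ncard hsub (Set.toFinite _)).trans (Set.ncard_image_le (Set.toFinite _))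
      have hsplit : S.ncard ≤ {q : (Bool × A) ⊕ (Bool × Q) | q ∈ S ∧ ∃ a, q = Sum.inl a}.ncard +
          ({q : Q | ∃! a, R q a ∧ a ∈ Db false}.ncard +
            {q : Q | ∃! a, R q a ∧ a ∈ Db true}.ncard) := by
        have hcov : S ⊆ {q : (Bool × A) ⊕ (Bool × Q) | q ∈ S ∧ ∃ a, q = Sum.inl a} ∪
            ({q : (Bool × A) ⊕ (Bool × Q) | q ∈ S ∧ ∃ q', q = Sum.inr (false, q')} ∪
            {q : (Bool × A) ⊕ (Bool × Q) | q ∈ S ∧ ∃ q', q = Sum.inr (true, q')}) := by
          rintro (a | ⟨b, q⟩) hq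
          · exact Or.inl ⟨hq, a, rfl⟩
          · cases b
            · exact Or.inr (Or.inl ⟨hq, q, rfl⟩)
            · exact Or.inr (Or.inr ⟨hq, q, rfl⟩)
        have e1 := Set.ncard_le_ncard hcov (Set.toFinite _)
        have e2 := Set.ncard_union_le {q : (Bool × A) ⊕ (Bool × Q) | q ∈ S ∧ ∃ a, q = Sum.inl a}
            ({q : (Bool × A) ⊕ (Bool × Q) | q ∈ S ∧ ∃ q', q = Sum.inr (false, q')} ∪
            {q : (Bool × A) ⊕ (Bool × Q) | q ∈ S ∧ ∃ q', q = Sum.inr (true, q')})
        have e3 := Set.ncard_union_le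
            {q : (Bool × A) ⊕ (Bool × Q) | q ∈ S ∧ ∃ q', q = Sum.inr (false, q')}
            {q : (Bool × A) ⊕ (Bool × Q) | q ∈ S ∧ ∃ q', q = Sum.inr (true, q')}
        have e4 := hside false
        have e5 := hside true
        omega
      have hf := h5 (Db false)
      have ht := h5 (Db true)
      by_cases huniq : ∃! a, a ∈ D
      · -- exactly one point: only one side contributes
        obtain ⟨⟨b, a⟩, hab, hu⟩ := huniq
        have hempty : {q : Q | ∃! a, R q a ∧ a ∈ Db (!b)}.ncard = 0 := by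
          rw [Set.ncard_eq_zero]
          ext q
          simp only [Set.mem_empty_iff_false, iff_false]
          rintro ⟨a', ⟨_, h7⟩, _⟩
          have := hu (!b, a') h7
          simp at this
        have hinl : {q : (Bool × A) ⊕ (Bool × Q) | q ∈ S ∧ ∃ a, q = Sum.inl a}.ncard ≤
            2 ^ (k + 1) := by
          have hsub : {q : (Bool × A) ⊕ (Bool × Q) | q ∈ S ∧ ∃ a, q = Sum.inl a} ⊆
              Sum.inl '' (Set.univ : Set (Bool × A)) := by
            rintro q ⟨_, a, rfl⟩
            exact ⟨a, trivial, rfl⟩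
          have e1 := Set.ncard_le_ncard hsub (Set.toFinite _)
          have e2 := Set.ncard_image_le (f := (Sum.inl : Bool × A → (Bool × A) ⊕ (Bool × Q)))
            (Set.toFinite (Set.univ : Set (Bool × A)))
          rw [Set.ncard_univ, Nat.card_eq_fintype_card, Fintype.card_prod, h1,
            Fintype.card_bool] at e2
          rw [pow_succ]
          omega
        have hp : 2 ^ (k + 1 + 1) = 2 ^ (k + 1) + 2 ^ (k + 1) := by ring
        cases b
        · have e : {q : Q | ∃! a, R q a ∧ a ∈ Db true}.ncard = 0 := hempty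
          omega
        · have e : {q : Q | ∃! a, R q a ∧ a ∈ Db false}.ncard = 0 := hempty
          omega
      · have hinl : {q : (Bool × A) ⊕ (Bool × Q) | q ∈ S ∧ ∃ a, q = Sum.inl a}.ncard = 0 := by
          rw [Set.ncard_eq_zero]
          ext q
          simp only [Set.mem_empty_iff_false, iff_false]
          rintro ⟨⟨a, ⟨_, h7⟩, h8⟩, a', rfl⟩
          exact huniq ⟨a, h7, fun y hy => h8 y ⟨trivial, hy⟩⟩
        have hp : 2 ^ (k + 1 + 1) = 2 ^ (k + 1) + 2 ^ (k + 1) := by ring
        omega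

/-- the incidence graph of a set system -/
def inc {A Q : Type} (R : Q → A → Prop) : SimpleGraph (A ⊕ Q) where
  Adj
    | Sum.inl a, Sum.inr q => R q a
    | Sum.inr q, Sum.inl a => R q a
    | _, _ => False
  symm := ⟨by
    rintro (a | q) (b | r) h
    · exact h
    · exact h
    · exact h
    · exact h⟩
  loopless := ⟨by
    rintro (a | q) h
    · exact h
    · exact h⟩

open Classical in
lemma unique_le {A Q : Type} [Fintype A] [Fintype Q] (R : Q → A → Prop) (P : A ⊕ Q → Prop) :
    (univ.filter fun v => (univ.filter fun w => (inc R).Adj v w ∧ P w).card = 1).card ≤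
      Fintype.card A + {q : Q | ∃! a, R q a ∧ a ∈ {a : A | P (Sum.inl a)}}.ncard := by
  have hsub : ((univ.filter fun v => (univ.filter fun w => (inc R).Adj v w ∧ P w).card = 1 :
      Finset (A ⊕ Q)) : Set (A ⊕ Q)) ⊆
      Sum.inl '' (Set.univ : Set A) ∪
        Sum.inr '' {q : Q | ∃! a, R q a ∧ a ∈ {a : A | P (Sum.inl a)}} := by
    rintro (a | q) hv
    · exact Or.inl ⟨a, trivial, rfl⟩
    · right
      refine ⟨q, ?_, rfl⟩
      rw [Finset.mem_coe, Finset.mem_filter] at hv
      obtain ⟨w, hw⟩ := Finset.card_eq_one.1 hv.2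
      have hw1 : w ∈ ({w} : Finset (A ⊕ Q)) := Finset.mem_singleton_self w
      rw [← hw, Finset.mem_filter] at hw1
      obtain ⟨_, hadj, hP⟩ := hw1
      cases w with
      | inr r => exact absurd hadj id
      | inl a =>
        refine ⟨a, ⟨hadj, hP⟩, fun a' ha' => ?_⟩
        have h2 : Sum.inl a' ∈ ({Sum.inl a} : Finset (A ⊕ Q)) := by
          rw [← hw, Finset.mem_filter]
          exact ⟨Finset.mem_univ _, ha'.1, ha'.2⟩
        exact Sum.inl_injective (Finset.mem_singleton.1 h2)
  have h1 := Set.ncard_le_ncard hsub (Set.toFinite _)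
  rw [Set.ncard_coe_finset] at h1
  refine h1.trans ((Set.ncard_union_le _ _).trans (Nat.add_le_add ?_ ?_))
  · refine (Set.ncard_image_le (Set.toFinite _)).trans ?_
    rw [Set.ncard_univ, Nat.card_eq_fintype_card]
  · exact Set.ncard_image_le (Set.toFinite _)

/-- For every `ε > 0` there is a connected graph of order `n ≥ 3` whose strong Roman domination
number exceeds `(1 - ε) n`. -/
theorem result (ε : ℝ) (hε : 0 < ε) :
    ∃ (V : Type) (_ : Fintype V) (G : SimpleGraph V) (_ : DecidableRel G.Adj),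
      G.Connected ∧ 3 ≤ Fintype.card V ∧
        (1 - ε) * (Fintype.card V : ℝ) < (strongRomanNum G : ℝ) := by
  classical
  obtain ⟨k, hk⟩ := exists_nat_gt (2 / ε + 1)
  have hk1 : 1 < k := by
    have : (1 : ℝ) < k := lt_trans (by have := div_pos two_pos hε; linarith) hk
    exact_mod_cast this
  obtain ⟨A, Q, hA, hQ, R, h1, h2, ⟨q0, h3⟩, h4, h5⟩ := exists_system k
  have hcard : Fintype.card (A ⊕ Q) = 2 ^ k * (k + 2) := by
    rw [Fintype.card_sum, h1, h2]
    ring
  have hne : Nonempty A := Fintype.card_pos_iff.1 (by rw [h1]; positivity)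
  refine ⟨A ⊕ Q, inferInstance, inc R, Classical.decRel _, ?_, ?_, ?_⟩
  · -- connectedness
    rw [connected_iff]
    obtain ⟨a0⟩ := hne
    have hq0 : ∀ v : A ⊕ Q, (inc R).Reachable v (Sum.inr q0) := by
      have hl : ∀ a : A, (inc R).Reachable (Sum.inl a) (Sum.inr q0) := fun a =>
        Adj.reachable (h3 a)
      rintro (a | q)
      · exact hl a
      · obtain ⟨a, ha⟩ := h4 q
        have : (inc R).Adj (Sum.inr q) (Sum.inl a) := ha
        exact this.reachable.trans (hl a)
    exact ⟨fun x y => (hq0 x).trans (hq0 y).symm, ⟨Sum.inl a0⟩⟩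
  · rw [hcard]
    have : 2 ≤ 2 ^ k := by
      calc 2 = 2 ^ 1 := by norm_num
        _ ≤ 2 ^ k := Nat.pow_le_pow_right (by norm_num) hk1.le
    nlinarith
  · -- the weight
    have hlow : ∀ f : A ⊕ Q → ℕ, IsStRDF (inc R) f →
        2 * (2 ^ k * (k + 2)) ≤ 2 * ∑ v, f v + 3 * 2 ^ k := by
      intro f hf
      have e1 := weight_ge hf
      have e2 := unique_le R (Good (inc R) f)
      have e3 := h5 {a : A | Good (inc R) f (Sum.inl a)}
      rw [hcard] at e1
      rw [h1] at e2
      rw [pow_succ] at e3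
      have e4 : (univ.filter fun v => (univ.filter fun w =>
          (inc R).Adj v w ∧ Good (inc R) f w).card = 1).card ≤ 3 * 2 ^ k := by
        refine (le_of_eq ?_).trans (e2.trans (by omega))
        congr!
      refine e1.trans (Nat.add_le_add_left ?_ _)
      refine (le_of_eq ?_).trans e4
      congr!
    have hmin : ∃ f : A ⊕ Q → ℕ, IsStRDF (inc R) f ∧ ∑ v, f v = strongRomanNum (inc R) := by
      have hne : {k | ∃ f : A ⊕ Q → ℕ, IsStRDF (inc R) f ∧ ∑ v, f v = k}.Nonempty :=
        ⟨_, fun _ => 1, ⟨fun v => Nat.le_add_left 1 _, fun v hv => absurd hv one_ne_zero⟩, rfl⟩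
      exact Nat.sInf_mem hne
    obtain ⟨f, hf, hw⟩ := hmin
    have e1 := hlow f hf
    rw [hw] at e1
    have e2 : (2 : ℝ) * (2 ^ k * (k + 2)) ≤ 2 * (strongRomanNum (inc R) : ℝ) + 3 * 2 ^ k := by
      exact_mod_cast e1
    rw [hcard]
    push_cast
    have hpk : (0 : ℝ) < 2 ^ k := by positivity
    have e3 : 2 < ε * (k + 2) := by
      have : 2 / ε < k + 2 := by linarith
      rw [div_lt_iff₀ hε] at this
      linarith
    have e4 : 2 * (2 ^ k : ℝ) < ε * (2 ^ k * (k + 2)) := by
      have := mul_lt_mul_of_pos_left e3 hpk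
      linarith
    linarith

end Pool.Agent.Results.MP_fc66e6_co.NoBound
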